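import Pool.Agent.H84.SL.Targets
import Pool.Agent.H66.VG.G1

set_option autoImplicit false

namespace Pool.Agent.H48.SL

open Pool.Agent.H84.SL Pool.Agent.H17.VG

theorem pf_DRV : T_DRV := by
  intro k F _ _ _ _ X Y hXY
  classical
  obtain ⟨t, hst, ht⟩ := exists_isTranscendenceBasis_superset (R := k)
    (s := Set.range ![X, Y]) hXY.to_subtype_range
  obtain ⟨D, hD⟩ := Pool.Agent.H66.VG.g1 k F t _ ht (fun y => if y.1 = X then 0 else 1)
  have hX : X ∈ t := hst ⟨0, rfl⟩
  have hY : Y ∈ t := hst ⟨1, rfl⟩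
  have hne : Y ≠ X := by
    intro h
    have h1 : (1 : Fin 2) = 0 := hXY.injective (by simpa using h)
    exact absurd h1 (by decide)
  refine ⟨D, ?_, ?_⟩
  · have h1 := hD ⟨X, hX⟩
    simpa using h1
  · have h1 := hD ⟨Y, hY⟩
    rw [if_neg hne] at h1
    have h2 : D Y = 1 := h1
    rw [h2]
    exact one_ne_zero

end Pool.Agent.H48.SL
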