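import Pool.Agent.H84.SL.Targets

set_option autoImplicit false

namespace Pool.Agent.H48.SL

open MvPolynomial Pool.Agent.H84.SL

/-- exponents of the homogenisation -/
noncomputable def ex (i j l : Fin 3) (N : ℕ) (m : Fin 2 →₀ ℕ) : Fin 3 →₀ ℕ :=
  Finsupp.single j (m 0) + Finsupp.single l (m 1) + Finsupp.single i (N - m 0 - m 1)

theorem ex_inj {i j l : Fin 3} (hij : i ≠ j) (hil : i ≠ l) (hjl : j ≠ l) (N : ℕ)
    {m m' : Fin 2 →₀ ℕ} (h : ex i j l N m = ex i j l N m') : m = m' := by
  have h1 := DFunLike.congr_fun h j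
  have h2 := DFunLike.congr_fun h l
  unfold ex at h1 h2
  simp only [Finsupp.add_apply, Finsupp.single_apply, if_true, if_neg hjl.symm, if_neg hjl,
    if_neg hij, if_neg hil, add_zero, zero_add] at h1 h2
  ext a
  fin_cases a
  · exact h1
  · exact h2

theorem deg_le {k : Type} [Field k] {Q : MvPolynomial (Fin 2) k} {m : Fin 2 →₀ ℕ}
    (hm : m ∈ Q.support) : m 0 + m 1 ≤ Q.totalDegree := by
  have h := le_totalDegree hm
  rw [Finsupp.sum_fintype _ _ (fun _ => rfl), Fin.sum_univ_two] at h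
  exact h

theorem pf_HNZ : T_HNZ := by
  intro k F _ _ _ p hp i j l hij hil hjl
  have hpi : p i ≠ 0 := by
    have h := hp 1 (X i) (X_ne_zero i) (isHomogeneous_X k i)
    rwa [aeval_X] at h
  rw [algebraicIndependent_iff]
  intro Q hQ
  by_contra hne
  obtain ⟨N, hN⟩ : ∃ N, N = Q.totalDegree := ⟨_, rfl⟩
  obtain ⟨Ψ, hΨ⟩ : ∃ Ψ : MvPolynomial (Fin 3) k,
      Ψ = ∑ m ∈ Q.support, monomial (ex i j l N m) (coeff m Q) := ⟨_, rfl⟩
  have hhom : Ψ.IsHomogeneous N := by
    rw [hΨ]
    refine IsHomogeneous.sum _ _ _ fun m hm => ?_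
    refine isHomogeneous_monomial _ ?_
    have h1 := deg_le hm
    rw [← hN] at h1
    unfold ex
    rw [map_add, map_add, Finsupp.degree_single, Finsupp.degree_single, Finsupp.degree_single]
    omega
  have hcoef : ∀ m0 ∈ Q.support, coeff (ex i j l N m0) Ψ = coeff m0 Q := by
    intro m0 hm0
    rw [hΨ, coeff_sum, Finset.sum_eq_single m0]
    · rw [coeff_monomial, if_pos rfl]
    · intro m _ hm
      rw [coeff_monomial, if_neg]
      exact fun h => hm (ex_inj hij hil hjl N h)
    · intro h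
      exact absurd hm0 h
  have hΨ0 : Ψ ≠ 0 := by
    intro h0
    obtain ⟨m0, hm0⟩ := support_nonempty.2 hne
    have h1 := hcoef m0 hm0
    rw [h0, coeff_zero] at h1
    exact (mem_support_iff.1 hm0) h1.symm
  apply hp N Ψ hΨ0 hhom
  have key : aeval p Ψ = p i ^ N * aeval ![p j / p i, p l / p i] Q := by
    conv_rhs => rw [Q.as_sum]
    rw [hΨ, map_sum, map_sum, Finset.mul_sum]
    refine Finset.sum_congr rfl fun m hm => ?_
    have h1 := deg_le hm
    rw [← hN] at h1
    rw [aeval_monomial, aeval_monomial]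
    have hsing : ∀ (a : Fin 3) (n : ℕ),
        ((Finsupp.single a n).prod fun x => HPow.hPow (p x)) = p a ^ n := fun a n =>
      Finsupp.prod_single_index (h := fun x b => p x ^ b) (pow_zero (p a))
    have e1 : ((ex i j l N m).prod fun a b => p a ^ b) =
        p j ^ (m 0) * p l ^ (m 1) * p i ^ (N - m 0 - m 1) := by
      unfold ex
      rw [Finsupp.prod_add_index' (fun _ => pow_zero _) (fun _ _ _ => pow_add _ _ _),
        Finsupp.prod_add_index' (fun _ => pow_zero _) (fun _ _ _ => pow_add _ _ _),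
        hsing, hsing, hsing]
    have e2 : (m.prod fun a b => (![p j / p i, p l / p i] a) ^ b) =
        (p j / p i) ^ (m 0) * (p l / p i) ^ (m 1) := by
      rw [Finsupp.prod_fintype _ _ (fun _ => pow_zero _), Fin.prod_univ_two]
      rfl
    rw [e1, e2]
    have e3 : p i ^ N = p i ^ (m 0) * p i ^ (m 1) * p i ^ (N - m 0 - m 1) := by
      rw [← pow_add, ← pow_add]
      congr 1
      omega
    rw [e3, div_pow, div_pow]
    field_simp
  rw [key, hQ, mul_zero]

end Pool.Agent.H48.SL
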