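import Pool.Agent.H84.SL.Targets
import Pool.Agent.H77.SM.NULR

set_option autoImplicit false

namespace Pool.Agent.H48.SL

open MvPolynomial Pool.Agent.H84.SL Pool.Agent.H84.SM

theorem pf_SMX : T_SMX := by
  intro k _ _ _ G d hd hG L _ _ a ha
  obtain ⟨e0, he⟩ := Pool.Agent.H77.SM.pf_NUL k G d hd hG 1
  funext i
  obtain ⟨b, -, hb⟩ := he e0 (X i ^ e0) le_rfl (isHomogeneous_X_pow i e0)
  have h1 := congrArg (aeval a) hb
  rw [map_pow, aeval_X, map_sum] at h1
  have h2 : ∑ j, aeval a (b j * pderiv j G ^ 1) = 0 := by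
    refine Finset.sum_eq_zero fun j _ => ?_
    rw [map_mul, pow_one, ha j, mul_zero]
  rw [h2] at h1
  by_contra h3
  exact pow_ne_zero e0 h3 h1

end Pool.Agent.H48.SL
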