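import Pool.Agent.H29.SL.Targets

/-!
MP_5b3ee2_nt, module L2: the cubic lemma.
-/

set_option autoImplicit false

namespace Pool.Agent.H48.SLL2

open Pool.Agent.H29.SL

lemma factor (X : ℕ) : X ^ 4 + X ^ 2 + 1 = (X ^ 2 + X + 1) * (X ^ 2 + 1 - X) := by
  have h : X ≤ X ^ 2 + 1 := by nlinarith
  obtain ⟨w, hw⟩ := Nat.exists_eq_add_of_le h
  rw [hw, Nat.add_sub_cancel_left]
  have hz : (w : ℤ) = (X : ℤ) ^ 2 + 1 - X := by
    have : ((X ^ 2 + 1 : ℕ) : ℤ) = ((X + w : ℕ) : ℤ) := by rw [hw]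
    push_cast at this
    linarith
  have : ((X ^ 4 + X ^ 2 + 1 : ℕ) : ℤ) = (((X ^ 2 + X + 1) * w : ℕ) : ℤ) := by
    push_cast
    rw [hz]
    ring
  exact_mod_cast this

lemma split {p c X : ℕ} (hp : p.Prime) (hp7 : 7 ≤ p) (h : p ^ c ∣ X ^ 4 + X ^ 2 + 1) :
    p ^ c ∣ X ^ 2 + X + 1 ∨ p ^ c ∣ X ^ 2 + 1 - X := by
  rw [factor] at h
  by_cases h1 : p ∣ X ^ 2 + X + 1
  · by_cases h2 : p ∣ X ^ 2 + 1 - X
    · exfalso
      have hle : X ≤ X ^ 2 + 1 := by nlinarith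
      have h3 : p ∣ (X ^ 2 + X + 1) - (X ^ 2 + 1 - X) := Nat.dvd_sub h1 h2
      have h4 : (X ^ 2 + X + 1) - (X ^ 2 + 1 - X) = 2 * X := by omega
      rw [h4] at h3
      have h5 : p ∣ X := by
        rcases hp.dvd_mul.1 h3 with h | h
        · have := Nat.le_of_dvd (by norm_num) h
          omega
        · exact h
      have h6 : p ∣ X ^ 2 + X := dvd_add (dvd_pow h5 two_ne_zero) h5
      have h7 : p ∣ 1 := (Nat.dvd_add_right h6).1 h1
      have := Nat.le_of_dvd one_pos h7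
      omega
    · left
      exact Nat.Coprime.dvd_of_dvd_mul_right
        (Nat.Coprime.pow_left c ((Nat.Prime.coprime_iff_not_dvd hp).2 h2)) h
  · right
    exact Nat.Coprime.dvd_of_dvd_mul_left
      (Nat.Coprime.pow_left c ((Nat.Prime.coprime_iff_not_dvd hp).2 h1)) h

theorem pf_L2 (hA : T_LA) (hB : T_LB) (hC : T_LC) (hD : T_LD) : T_L2 := by
  intro p c u X hp hp7 hc hX h
  have hs := split hp hp7 h
  have key : ∀ a : ℕ, a ≤ u ^ 10 → a ≤ 684 * u ^ 10 := fun a ha => by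
    have : u ^ 10 ≤ 684 * u ^ 10 := Nat.le_mul_of_pos_left _ (by norm_num)
    omega
  rcases Nat.lt_or_ge c 4 with h4 | h4
  · interval_cases c
    · rw [pow_one] at hs
      have := hA p u X hp hp7 hX hs
      exact ⟨key _ this, fun _ => this⟩
    · exact hB p u X hp hp7 hX hs
    · exact hC p u X hp hp7 hX hs
  · have := hD p c u X hp hp7 h4 hX hs
    exact ⟨key _ this, fun _ => this⟩

end Pool.Agent.H48.SLL2
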